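import Pool.Agent.Lib.MP_c7af3c_ag.GEN.Groups

/-!
# MP_c7af3c_ag, project GEN, module GTAN: a morphism with zero differential is constant
-/

set_option autoImplicit false

namespace Pool.Agent.Gen.H58

open MvPolynomial IntermediateField

/-- derivations of a polynomial ring extend along formally etale extensions -/
theorem exists_ext' {k0 A K : Type} [CommRing k0] [CommRing A] [CommRing K] [Algebra k0 A]
    [Algebra k0 K] [Algebra A K] [IsScalarTower k0 A K] [Algebra.FormallyEtale A K]
    (d : Derivation k0 A K) : ∃ D : Derivation k0 K K, ∀ s : A, D (algebraMap A K s) = d s := by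
  let l : TensorProduct A K (Ω[A⁄k0]) →ₗ[K] K :=
    LinearMap.liftBaseChange K d.liftKaehlerDifferential
  let g : Ω[K⁄k0] →ₗ[K] K :=
    l ∘ₗ (KaehlerDifferential.tensorKaehlerEquivOfFormallyEtale k0 A K).symm.toLinearMap
  refine ⟨g.compDer (KaehlerDifferential.D k0 K), fun s => ?_⟩
  show l ((KaehlerDifferential.tensorKaehlerEquivOfFormallyEtale k0 A K).symm
    (KaehlerDifferential.D k0 K (algebraMap A K s))) = d s
  rw [KaehlerDifferential.tensorKaehlerEquivOfFormallyEtale_symm_D_algebraMap]
  simp [l]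

theorem exists_dual' {k0 K ι : Type} [Field k0] [CharZero k0] [Field K] [Algebra k0 K]
    {t : ι → K} (ht : IsTranscendenceBasis k0 t) (f : ι → K) :
    ∃ D : Derivation k0 K K, ∀ i, D (t i) = f i := by
  let : Algebra (MvPolynomial ι k0) K := (aeval t : MvPolynomial ι k0 →ₐ[k0] K).toAlgebra
  have hmap : ∀ f : MvPolynomial ι k0, algebraMap (MvPolynomial ι k0) K f = aeval t f :=
    fun f => rfl
  have : IsScalarTower k0 (MvPolynomial ι k0) K := by
    refine IsScalarTower.of_algebraMap_eq fun x => ?_
    rw [hmap, MvPolynomial.algebraMap_eq, aeval_C]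
  let F : IntermediateField k0 K := adjoin k0 (Set.range t)
  have hmem : ∀ f : MvPolynomial ι k0, aeval t f ∈ F := by
    intro f
    have h1 : aeval t f ∈ Algebra.adjoin k0 (Set.range t) := by
      rw [Algebra.adjoin_range_eq_range_aeval]
      exact ⟨f, rfl⟩
    exact algebra_adjoin_le_adjoin k0 _ h1
  let : Algebra (MvPolynomial ι k0) F :=
    ((aeval t : MvPolynomial ι k0 →ₐ[k0] K).codRestrict F.toSubalgebra hmem).toAlgebra
  have hmapF : ∀ f : MvPolynomial ι k0,
      ((algebraMap (MvPolynomial ι k0) F f : F) : K) = aeval t f := fun f => rfl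
  have : IsScalarTower (MvPolynomial ι k0) F K := IsScalarTower.of_algebraMap_eq fun x => rfl
  have hinj : Function.Injective (algebraMap (MvPolynomial ι k0) F) := by
    intro f g h
    have h2 := congrArg (fun z : F => (z : K)) h
    exact ht.1 h2
  have : FaithfulSMul (MvPolynomial ι k0) F :=
    (faithfulSMul_iff_algebraMap_injective _ _).2 hinj
  have : IsFractionRing (MvPolynomial ι k0) F := by
    refine IsFractionRing.of_field _ _ fun z => ?_
    obtain ⟨r, s, h⟩ := (mem_adjoin_range_iff k0 t (z : K)).1 z.2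
    refine ⟨r, s, ?_⟩
    apply Subtype.ext
    rw [h]
    rfl
  have : Algebra.FormallyEtale (MvPolynomial ι k0) F :=
    Algebra.FormallyEtale.of_isLocalization (nonZeroDivisors (MvPolynomial ι k0))
  have : Algebra.IsAlgebraic F K := ht.isAlgebraic_field
  have : CharZero F := charZero_of_injective_algebraMap (algebraMap k0 F).injective
  have : Algebra.IsSeparable F K := inferInstance
  have : Algebra.FormallyEtale F K := Algebra.FormallyEtale.of_isSeparable F K
  have : Algebra.FormallyEtale (MvPolynomial ι k0) K :=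
    Algebra.FormallyEtale.comp (MvPolynomial ι k0) F K
  obtain ⟨D, hD⟩ : ∃ D : Derivation k0 K K, ∀ s : MvPolynomial ι k0,
      D (algebraMap (MvPolynomial ι k0) K s) = mkDerivation k0 f s :=
    exists_ext' _
  refine ⟨D, fun i => ?_⟩
  have h := hD (X i)
  rw [hmap, aeval_X, mkDerivation_X] at h
  exact h

/-- a derivation with `D h = 1` for `h` not algebraic -/
theorem exists_der {k K : Type} [Field k] [CharZero k] [Field K] [Algebra k K] (h : K)
    (hh : Transcendental k h) : ∃ D : Derivation k K K, D h = 1 := by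
  have h1 : AlgebraicIndepOn k id ({h} : Set K) :=
    algebraicIndependent_unique_type_iff.mpr hh
  obtain ⟨t, ht1, ht2⟩ := exists_isTranscendenceBasis_superset h1
  obtain ⟨D, hD⟩ := exists_dual' ht2 (fun _ => (1 : K))
  exact ⟨D, hD ⟨h, ht1 rfl⟩⟩

/-- a `k`-point off the zeros of a nonzero function -/
theorem exists_pt {k B : Type} [Field k] [IsAlgClosed k] [CommRing B] [IsDomain B] [Algebra k B]
    [Algebra.FiniteType k B] (f : B) (hf : f ≠ 0) : ∃ Q : B →ₐ[k] k, Q f ≠ 0 := by
  have h1 : IsJacobsonRing B := isJacobsonRing_of_finiteType (A := k)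
  have h2 : (⊥ : Ideal B).jacobson = ⊥ := h1.out (Ideal.isPrime_bot.isRadical)
  have h3 : f ∉ (⊥ : Ideal B).jacobson := by
    rw [h2]; exact hf
  rw [Ideal.jacobson, Submodule.mem_sInf] at h3
  push Not at h3
  obtain ⟨m, ⟨-, hm⟩, hfm⟩ := h3
  have hm' : Ideal.IsMaximal m := hm
  let : Field (B ⧸ m) := Ideal.Quotient.field m
  have h4 : Module.Finite k (B ⧸ m) := finite_of_finite_type_of_isJacobsonRing k (B ⧸ m)
  have h5 : Function.Bijective (algebraMap k (B ⧸ m)) :=
    IsAlgClosed.algebraMap_bijective_of_isIntegral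
  let e : k ≃ₐ[k] (B ⧸ m) := AlgEquiv.ofBijective (Algebra.ofId k (B ⧸ m)) h5
  refine ⟨(e.symm : (B ⧸ m) →ₐ[k] k).comp (Ideal.Quotient.mkₐ k m), fun h => hfm ?_⟩
  have h6 : e.symm (Ideal.Quotient.mk m f) = 0 := h
  rw [EmbeddingLike.map_eq_zero_iff] at h6
  exact Ideal.Quotient.eq_zero_iff_mem.1 h6

/-- a tangent vector along which `h` is not constant -/
theorem exists_tan {k B : Type} [Field k] [IsAlgClosed k] [CharZero k] [CommRing B] [IsDomain B]
    [Algebra k B] [Algebra.FiniteType k B] (h : B) (hh : ∀ c : k, algebraMap k B c ≠ h) :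
    ∃ v : B →ₐ[k] DualNumber k, TrivSqZeroExt.snd (v h) ≠ 0 := by
  classical
  let L := FractionRing B
  have htr : Transcendental k (algebraMap B L h) := by
    intro hal
    obtain ⟨c, hc⟩ := (IsAlgClosed.algebraMap_bijective_of_isIntegral
      (k := k) (K := integralClosure k L)).2 ⟨algebraMap B L h, hal.isIntegral⟩
    refine hh c (IsFractionRing.injective B L ?_)
    rw [← IsScalarTower.algebraMap_apply]
    exact congrArg Subtype.val hc
  obtain ⟨D, hD⟩ := exists_der _ htr
  obtain ⟨S, hS⟩ := Algebra.FiniteType.out (R := k) (A := B)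
  -- a common denominator
  obtain ⟨f, hf⟩ := IsLocalization.exist_integer_multiples_of_finset (nonZeroDivisors B)
    (S.image fun b => D (algebraMap B L b))
  have hf0 : (f : B) ≠ 0 := nonZeroDivisors.ne_zero f.2
  have key : ∀ b : B, ∃ c : B, algebraMap B L c = algebraMap B L f * D (algebraMap B L b) := by
    intro b
    have hb : b ∈ Algebra.adjoin k (S : Set B) := by rw [hS]; trivial
    induction hb using Algebra.adjoin_induction with
    | mem x hx =>
      obtain ⟨c, hc⟩ := hf (D (algebraMap B L x)) (Finset.mem_image_of_mem _ hx)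
      refine ⟨c, ?_⟩
      rw [hc, Algebra.smul_def]
    | algebraMap r =>
      refine ⟨0, ?_⟩
      rw [← IsScalarTower.algebraMap_apply, Derivation.map_algebraMap, map_zero, mul_zero]
    | add x y _ _ hx hy =>
      obtain ⟨c, hc⟩ := hx
      obtain ⟨c', hc'⟩ := hy
      refine ⟨c + c', ?_⟩
      rw [map_add, hc, hc', map_add, map_add, mul_add]
    | mul x y _ _ hx hy =>
      obtain ⟨c, hc⟩ := hx
      obtain ⟨c', hc'⟩ := hy
      refine ⟨x * c' + y * c, ?_⟩
      rw [map_add, map_mul, map_mul, hc, hc', map_mul, Derivation.leibniz, smul_eq_mul,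
        smul_eq_mul]
      ring
  choose E hE using key
  have hinj := IsFractionRing.injective B L
  obtain ⟨Q, hQ⟩ := exists_pt (k := k) (f : B) hf0
  have hE1 : E 1 = 0 := by
    apply hinj
    rw [hE, map_one, Derivation.map_one_eq_zero, mul_zero, map_zero]
  have hE0 : E 0 = 0 := by
    apply hinj
    rw [hE, map_zero, map_zero, mul_zero]
  have hEadd : ∀ x y, E (x + y) = E x + E y := by
    intro x y
    apply hinj
    rw [map_add, hE, hE, hE, map_add, map_add, mul_add]
  have hEmul : ∀ x y, E (x * y) = x * E y + y * E x := by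
    intro x y
    apply hinj
    rw [map_add, map_mul, map_mul, hE, hE, hE, map_mul, Derivation.leibniz, smul_eq_mul,
        smul_eq_mul]
    ring
  have hEc : ∀ c : k, E (algebraMap k B c) = 0 := by
    intro c
    apply hinj
    rw [hE, ← IsScalarTower.algebraMap_apply, Derivation.map_algebraMap, map_zero, mul_zero]
  have hEh : E h = f := by
    apply hinj
    rw [hE, hD, mul_one]
  refine ⟨{
    toFun := fun b => (Q b, Q (E b))
    map_one' := ?_
    map_mul' := ?_
    map_zero' := ?_
    map_add' := ?_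
    commutes' := ?_ }, ?_⟩
  · rw [hE1, map_one, map_zero]; rfl
  · intro x y
    refine TrivSqZeroExt.ext ?_ ?_
    · show Q (x * y) = Q x * Q y
      rw [map_mul]
    · show Q (E (x * y)) = Q x • Q (E y) + MulOpposite.op (Q y) • Q (E x)
      rw [hEmul, map_add, map_mul, map_mul]
      simp [mul_comm]
  · show (Q 0, Q (E 0)) = _
    rw [hE0, map_zero]; rfl
  · intro x y
    refine TrivSqZeroExt.ext ?_ ?_
    · show Q (x + y) = Q x + Q y
      rw [map_add]
    · show Q (E (x + y)) = Q (E x) + Q (E y)
      rw [hEadd, map_add]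
  · intro c
    refine TrivSqZeroExt.ext ?_ ?_
    · show Q (algebraMap k B c) = c
      exact Q.commutes c
    · show Q (E (algebraMap k B c)) = 0
      rw [hEc, map_zero]
  · show Q (E h) ≠ 0
    rw [hEh]; exact hQ

section

open AlgebraicGeometry CategoryTheory CategoryTheory.Limits

/-- the structure morphism on an affine open -/
theorem fromSpec_str {k : Type} [Field k] {A : Scheme.{0}} (a : A ⟶ Spec (CommRingCat.of k))
    {U : A.Opens} (hU : IsAffineOpen U) :
    hU.fromSpec ≫ a = Spec.map ((Scheme.ΓSpecIso (CommRingCat.of k)).inv ≫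
      a.appLE ⊤ U le_top) := by
  have h1 := IsAffineOpen.SpecMap_appLE_fromSpec a (isAffineOpen_top (Spec (CommRingCat.of k)))
    hU le_top
  rw [← h1, IsAffineOpen.fromSpec_top, Scheme.isoSpec_Spec_inv, ← Spec.map_comp]

/-- GTAN -/
theorem gtan : GtanStatement := by
  intro k _ _ _ A Y hA hft hsep φ hφ a b
  -- affine charts
  have x0 : A.left := a
  obtain ⟨V, hV, hxV, -⟩ := exists_isAffineOpen_mem_and_subset
    (x := φ.left.base x0) (U := ⊤) trivial
  obtain ⟨U, hU, hxU, hUV⟩ := exists_isAffineOpen_mem_and_subset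
    (x := x0) (U := φ.left ⁻¹ᵁ V) hxV
  have hUV' : U ≤ φ.left ⁻¹ᵁ V := hUV
  have hne : Nonempty U := ⟨⟨x0, hxU⟩⟩
  have hdom : IsDomain Γ(A.left, U) := inferInstance
  -- the algebra structure
  let cs : k →+* Γ(A.left, U) := ((Scheme.ΓSpecIso (CommRingCat.of k)).inv ≫
      A.hom.appLE ⊤ U le_top).hom
  let : Algebra k Γ(A.left, U) := cs.toAlgebra
  have hfin : Algebra.FiniteType k Γ(A.left, U) := by
    have h1 : (A.hom.appLE ⊤ U le_top).hom.FiniteType :=
      HasRingHomProperty.appLE (P := @LocallyOfFiniteType) A.hom hft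
        ⟨⊤, isAffineOpen_top _⟩ ⟨U, hU⟩ le_top
    have h2 : cs.FiniteType := by
      have h3 : (Scheme.ΓSpecIso (CommRingCat.of k)).inv.hom.FiniteType :=
        RingHom.FiniteType.of_surjective _
          (Scheme.ΓSpecIso (CommRingCat.of k)).symm.commRingCatIsoToRingEquiv.surjective
      exact h1.comp h3
    exact h2
  have hstr : hU.fromSpec ≫ A.hom = Spec.map (CommRingCat.ofHom cs) := fromSpec_str A.hom hU
  have happ : Spec.map (φ.left.appLE V U hUV') ≫ hV.fromSpec = hU.fromSpec ≫ φ.left :=
    IsAffineOpen.SpecMap_appLE_fromSpec φ.left hV hU hUV'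
  -- the functions of `Y` are constant on `U`
  have key : ∀ r : Γ(Y.left, V), ∃ c : k, cs c = (φ.left.appLE V U hUV').hom r := by
    intro r
    by_contra hcon
    push Not at hcon
    obtain ⟨v, hv⟩ := exists_tan (k := k) ((φ.left.appLE V U hUV').hom r) hcon
    let w : dualOver k ⟶ A := Over.homMk (Spec.map (CommRingCat.ofHom v.toRingHom) ≫ hU.fromSpec)
      (by
        rw [Category.assoc, hstr, ← Spec.map_comp, ← CommRingCat.ofHom_comp]
        show _ = Spec.map _
        congr 2
        exact v.comp_algebraMap)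
    have h1 := congrArg (fun t => t.left) (hφ w)
    have h2 : Spec.map (CommRingCat.ofHom
        (TrivSqZeroExt.map ((0 : k) • LinearMap.id : k →ₗ[k] k)).toRingHom) ≫
        (Spec.map (CommRingCat.ofHom v.toRingHom) ≫ hU.fromSpec) ≫ φ.left =
        (Spec.map (CommRingCat.ofHom v.toRingHom) ≫ hU.fromSpec) ≫ φ.left := h1
    rw [Category.assoc, ← happ, ← Category.assoc, ← Category.assoc, ← Category.assoc,
      cancel_mono, ← Spec.map_comp, ← Spec.map_comp, ← Spec.map_comp] at h2
    have h3 := Spec.map_injective h2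
    have h4 := congrArg (fun t => t.hom r) h3
    have h5 : (TrivSqZeroExt.map ((0 : k) • LinearMap.id : k →ₗ[k] k))
        (v ((φ.left.appLE V U hUV').hom r)) = v ((φ.left.appLE V U hUV').hom r) := h4
    apply hv
    rw [← h5, TrivSqZeroExt.snd_map]
    simp
  -- a point
  obtain ⟨Q, -⟩ := exists_pt (k := k) (1 : Γ(A.left, U)) one_ne_zero
  let q : Spec (CommRingCat.of k) ⟶ A.left :=
    Spec.map (CommRingCat.ofHom Q.toRingHom) ≫ hU.fromSpec
  have hq : q ≫ A.hom = 𝟙 _ := by
    show (Spec.map (CommRingCat.ofHom Q.toRingHom) ≫ hU.fromSpec) ≫ A.hom = _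
    rw [Category.assoc, hstr, ← Spec.map_comp, ← CommRingCat.ofHom_comp]
    have h1 : Q.toRingHom.comp cs = RingHom.id k := Q.comp_algebraMap
    rw [h1]
    exact Spec.map_id _
  have hU2 : hU.fromSpec ≫ φ.left = hU.fromSpec ≫ A.hom ≫ q ≫ φ.left := by
    have h1 : q ≫ φ.left = Spec.map (CommRingCat.ofHom Q.toRingHom) ≫
        Spec.map (φ.left.appLE V U hUV') ≫ hV.fromSpec := by
      rw [happ]
      exact Category.assoc _ _ _
    rw [← Category.assoc hU.fromSpec, hstr, h1, ← happ, ← Category.assoc, ← Category.assoc,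
      cancel_mono, ← Spec.map_comp, ← Spec.map_comp]
    congr 1
    ext r
    obtain ⟨c, hc⟩ := key r
    show (φ.left.appLE V U hUV').hom r = cs (Q ((φ.left.appLE V U hUV').hom r))
    rw [← hc]
    congr 1
    exact (Q.commutes c).symm
  have hYs : IsSeparated Y.hom := hsep
  have hred : IsReduced A.left := inferInstance
  have hD : IsDominant hU.fromSpec := by
    refine ⟨?_⟩
    show Dense _
    rw [hU.range_fromSpec]
    exact U.isOpen.dense ⟨x0, hxU⟩
  have hfin2 : φ.left = A.hom ≫ q ≫ φ.left := by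
    refine ext_of_isDominant_of_isSeparated Y.hom ?_ hU.fromSpec hU2
    have h1 : φ.left ≫ Y.hom = A.hom := Over.w φ
    rw [Category.assoc, Category.assoc, h1, hq, Category.comp_id]
  have hsub : Subsingleton (Spec (CommRingCat.of k)) :=
    inferInstanceAs (Subsingleton (PrimeSpectrum k))
  rw [hfin2]
  show (q ≫ φ.left).base (A.hom.base a) = (q ≫ φ.left).base (A.hom.base b)
  rw [Subsingleton.elim (A.hom.base a) (A.hom.base b)]

end

end Pool.Agent.Gen.H58
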