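import Pool.Agent.Lib.MP_c7af3c_ag.GEN.Interfaces

/-!
# GEN, module PROD: the product formula
-/

set_option autoImplicit false

namespace Pool.Agent.Gen.H58

open WithZero IsDedekindDomain Pool.Agent.Gen

/-! ### Polynomials in `τ` and `τ⁻¹` -/

section poly

variable {κ L : Type} [Field κ] [Field L] [Algebra κ L] {τ : L}

lemma tr_ne_zero (ht : Transcendental κ τ) : τ ≠ 0 := by
  rintro rfl
  exact ht isAlgebraic_zero

lemma aeval_inv (h0 : τ ≠ 0) (q : Polynomial κ) :
    Polynomial.aeval τ⁻¹ q * τ ^ q.natDegree = Polynomial.aeval τ q.reverse := by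
  have h1 : τ⁻¹ ≠ 0 := inv_ne_zero h0
  haveI : Invertible (τ⁻¹) := invertibleOfNonzero h1
  have h2 := Polynomial.eval₂_reverse_mul_pow (algebraMap κ L) (τ⁻¹) q
  rw [invOf_eq_inv, inv_inv] at h2
  rw [Polynomial.aeval_def, Polynomial.aeval_def, ← h2, mul_assoc, ← mul_pow, inv_mul_cancel₀ h0,
    one_pow, mul_one]

/-- comparison of degrees -/
lemma deg_compare (ht : Transcendental κ τ) {P P' Q Q' : Polynomial κ} (hP : P ≠ 0) (hP' : P' ≠ 0)
    (hQ : Q ≠ 0) (hQ' : Q' ≠ 0)
    (h : Polynomial.aeval τ P * Polynomial.aeval τ⁻¹ Q' =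
      Polynomial.aeval τ P' * Polynomial.aeval τ⁻¹ Q) :
    P.natDegree + Q.rootMultiplicity 0 = P'.natDegree + Q'.rootMultiplicity 0 := by
  have h0 := tr_ne_zero ht
  have h1 : Polynomial.aeval τ (P * Q'.reverse * Polynomial.X ^ Q.natDegree) =
      Polynomial.aeval τ (P' * Q.reverse * Polynomial.X ^ Q'.natDegree) := by
    rw [map_mul, map_mul, map_mul, map_mul, ← aeval_inv h0, ← aeval_inv h0, map_pow, map_pow,
      Polynomial.aeval_X]
    linear_combination (τ ^ Q.natDegree * τ ^ Q'.natDegree) * h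
  have h2 := (transcendental_iff_injective.1 ht) h1
  have h3 := congrArg Polynomial.natDegree h2
  have hr : Q.reverse ≠ 0 := by rwa [Ne, Polynomial.reverse_eq_zero]
  have hr' : Q'.reverse ≠ 0 := by rwa [Ne, Polynomial.reverse_eq_zero]
  have hX : ∀ k : ℕ, (Polynomial.X ^ k : Polynomial κ) ≠ 0 := fun k =>
    pow_ne_zero k Polynomial.X_ne_zero
  rw [Polynomial.natDegree_mul (mul_ne_zero hP hr') (hX _), Polynomial.natDegree_mul hP hr',
    Polynomial.natDegree_mul (mul_ne_zero hP' hr) (hX _), Polynomial.natDegree_mul hP' hr,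
    Polynomial.natDegree_X_pow, Polynomial.natDegree_X_pow, Polynomial.reverse_natDegree,
    Polynomial.reverse_natDegree] at h3
  rw [Polynomial.rootMultiplicity_eq_natTrailingDegree',
    Polynomial.rootMultiplicity_eq_natTrailingDegree']
  have h4 := Polynomial.natTrailingDegree_le_natDegree Q
  have h5 := Polynomial.natTrailingDegree_le_natDegree Q'
  omega

end poly

/-! ### Sums -/

lemma finsum_sum' {α β : Type} (g : α ⊕ β → ℤ) (hg : (Function.support g).Finite) :
    ∑ᶠ p, g p = ∑ᶠ a, g (Sum.inl a) + ∑ᶠ b, g (Sum.inr b) := by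
  rw [← finsum_mem_univ, ← Set.range_inl_union_range_inr,
    finsum_mem_union' Set.isCompl_range_inl_range_inr.disjoint (hg.subset Set.inter_subset_right)
      (hg.subset Set.inter_subset_right), finsum_mem_range Sum.inl_injective,
    finsum_mem_range Sum.inr_injective]

/-- the sum over the maximal ideals of one Dedekind domain -/
lemma quot (hN : NormidStatement) (A B L : Type) [CommRing A] [IsDomain A]
    [IsPrincipalIdealRing A] [CommRing B] [IsDedekindDomain B] [Algebra A B] [Module.Finite A B]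
    [Module.IsTorsionFree A B] [Field L] [Algebra B L] [IsFractionRing B L] (lam : A → ℕ)
    (hlam : ∀ a b, a ≠ 0 → b ≠ 0 → lam (a * b) = lam a + lam b)
    (hfin : ∀ f : L, f ≠ 0 → {P : HeightOneSpectrum B | P.valuation L f ≠ 1}.Finite)
    {a b : B} (ha : a ≠ 0) (hb : b ≠ 0) {f : L} (hf : algebraMap B L a * f = algebraMap B L b) :
    ∑ᶠ P : HeightOneSpectrum B, (lam (nrm A P.asIdeal) : ℤ) * log (P.valuation L f) =
      (lam (Algebra.intNorm A B a) : ℤ) - lam (Algebra.intNorm A B b) := by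
  have hinj := IsFractionRing.injective B L
  have ha' : algebraMap B L a ≠ 0 := fun h => ha (hinj (by rw [h, map_zero]))
  have hb' : algebraMap B L b ≠ 0 := fun h => hb (hinj (by rw [h, map_zero]))
  have hf0 : f ≠ 0 := by
    rintro rfl
    rw [mul_zero] at hf
    exact hb' hf.symm
  have h1 := (hN A B L lam hlam).1 a ha
  have h2 := (hN A B L lam hlam).1 b hb
  have hs : ∀ g : L, g ≠ 0 → (Function.support fun P : HeightOneSpectrum B =>
      (lam (nrm A P.asIdeal) : ℤ) * log (P.valuation L g)).Finite := by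
    intro g hg
    refine (hfin g hg).subset fun P hP => ?_
    simp only [Function.mem_support, ne_eq, mul_eq_zero, not_or] at hP
    exact fun h1 => hP.2 (by rw [h1, log_one])
  have h3 : ∀ P : HeightOneSpectrum B,
      (lam (nrm A P.asIdeal) : ℤ) * log (P.valuation L f) =
      (lam (nrm A P.asIdeal) : ℤ) * log (P.valuation L (algebraMap B L b)) -
      (lam (nrm A P.asIdeal) : ℤ) * log (P.valuation L (algebraMap B L a)) := by
    intro P
    rw [← hf, map_mul, log_mul]
    · ring
    · rwa [Ne, map_eq_zero]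
    · rwa [Ne, map_eq_zero]
  simp only [h3]
  rw [finsum_sub_distrib (hs _ hb') (hs _ ha'), h1, h2]
  ring

/-- norms from equal subfields -/
lemma norm_congr {κ L : Type} [Field κ] [Field L] [Algebra κ L] {K K' : IntermediateField κ L}
    (h : K = K') (x : L) : algebraMap K L (Algebra.norm K x) = algebraMap K' L (Algebra.norm K' x) := by
  subst h
  rfl

section main

variable {κ L : Type} [Field κ] [Field L] [Algebra κ L] {τ : L}

open scoped IntermediateField.algebraAdjoinAdjoin

lemma adjoin_inv (τ : L) :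
    IntermediateField.adjoin κ {τ⁻¹} = IntermediateField.adjoin κ {τ} := by
  apply le_antisymm
  · rw [IntermediateField.adjoin_simple_le_iff]
    exact inv_mem (IntermediateField.mem_adjoin_simple_self κ τ)
  · rw [IntermediateField.adjoin_simple_le_iff]
    have := inv_mem (IntermediateField.mem_adjoin_simple_self κ τ⁻¹)
    rwa [inv_inv] at this

lemma aeval_poly (h : FF κ L τ) (a : PA κ τ) : Polynomial.aeval τ (h.poly a) = (a : L) := by
  obtain ⟨q, rfl⟩ := (Polynomial.algEquivOfTranscendental κ τ h.tr).surjective a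
  unfold FF.poly
  rw [AlgEquiv.symm_apply_apply, Polynomial.algEquivOfTranscendental_apply]
  exact (Polynomial.aeval_subalgebra_coe q (PA κ τ)
    ⟨τ, Algebra.self_mem_adjoin_singleton κ τ⟩).symm

/-- the norm from `L` to `κ(τ)`, in `L` -/
noncomputable def nm (κ : Type) {L : Type} [Field κ] [Field L] [Algebra κ L] (τ : L) : L →* L :=
  ((algebraMap (IntermediateField.adjoin κ {τ}) L : _ →+* L) : _ →* L).comp
    (Algebra.norm (IntermediateField.adjoin κ {τ}))

lemma nm_inv (τ : L) (x : L) : nm κ τ⁻¹ x = nm κ τ x := norm_congr (adjoin_inv τ) x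

lemma intNorm_eq (h : FF κ L τ) (b : PB κ τ) :
    haveI := h.pid
    haveI := h.ddk
    haveI := h.finB
    Polynomial.aeval τ (h.poly (Algebra.intNorm (PA κ τ) (PB κ τ) b)) = nm κ τ (b : L) := by
  have := h.pid
  have := h.ddk
  have := h.finB
  have := h.fin
  have := h.sep
  have := h.frac
  rw [aeval_poly]
  have h1 := Algebra.algebraMap_intNorm (A := PA κ τ) (K := IntermediateField.adjoin κ {τ})
    (L := L) (B := PB κ τ) b
  exact congrArg (algebraMap (IntermediateField.adjoin κ {τ}) L) h1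

lemma nm_ne_zero (h : FF κ L τ) {x : L} (hx : x ≠ 0) : nm κ τ x ≠ 0 := by
  have := h.fin
  intro h0
  have h1 : Algebra.norm (IntermediateField.adjoin κ {τ}) x = 0 := by
    apply (algebraMap (IntermediateField.adjoin κ {τ}) L).injective
    rw [map_zero]
    exact h0
  exact hx (Algebra.norm_eq_zero_iff.1 h1)

/-- every element is a quotient of integral elements -/
lemma exists_quot (h : FF κ L τ) {f : L} (hf : f ≠ 0) : ∃ a b : PB κ τ, a ≠ 0 ∧ b ≠ 0 ∧
    algebraMap (PB κ τ) L a * f = algebraMap (PB κ τ) L b := by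
  have := h.frac
  obtain ⟨b, a, ha, hab⟩ := IsFractionRing.div_surjective (A := PB κ τ) f
  have ha0 : a ≠ 0 := nonZeroDivisors.ne_zero ha
  have hinj := IsFractionRing.injective (PB κ τ) L
  have ha' : algebraMap (PB κ τ) L a ≠ 0 := fun h => ha0 (hinj (by rw [h, map_zero]))
  have h1 : algebraMap (PB κ τ) L a * f = algebraMap (PB κ τ) L b := by
    rw [← hab]
    field_simp
  refine ⟨a, b, ha0, ?_, h1⟩
  rintro rfl
  rw [map_zero] at h1
  exact (mul_ne_zero ha' hf) h1

theorem prod_aux (hN : NormidStatement) (h : FF κ L τ)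
    (hfin : ∀ f : L, f ≠ 0 → {p | (ffPlaces h).v p f ≠ 1}.Finite) (f : L) (hf : f ≠ 0) :
    ∑ᶠ p, ((ffPlaces h).w p : ℤ) * log ((ffPlaces h).v p f) = 0 := by
  have hsupp : (Function.support fun p => ((ffPlaces h).w p : ℤ) *
      log ((ffPlaces h).v p f)).Finite := by
    refine (hfin f hf).subset fun P hP => ?_
    simp only [Function.mem_support, ne_eq, mul_eq_zero, not_or] at hP
    exact fun h1 => hP.2 (by rw [h1, log_one])
  have e0 : ∑ᶠ p, ((ffPlaces h).w p : ℤ) * log ((ffPlaces h).v p f) =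
      ∑ᶠ P : HeightOneSpectrum (PB κ τ), ((ffPlaces h).w (Sum.inl P) : ℤ) *
        log ((ffPlaces h).v (Sum.inl P) f) +
      ∑ᶠ Q : HeightOneSpectrum (PB κ τ⁻¹), ((ffPlaces h).w (Sum.inr Q) : ℤ) *
        log ((ffPlaces h).v (Sum.inr Q) f) := finsum_sum' _ hsupp
  rw [e0]
  obtain ⟨a1, b1, ha1, hb1, hf1⟩ := exists_quot h hf
  obtain ⟨a2, b2, ha2, hb2, hf2⟩ := exists_quot h.inv hf
  have i1 := h.pid
  have i2 := h.ddk
  have i3 := h.finB
  have i4 := h.frac
  have j1 := h.inv.pid
  have j2 := h.inv.ddk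
  have j3 := h.inv.finB
  have j4 := h.inv.frac
  have e1 : ∑ᶠ P : HeightOneSpectrum (PB κ τ), ((ffPlaces h).w (Sum.inl P) : ℤ) *
        log ((ffPlaces h).v (Sum.inl P) f) =
      ((h.poly (Algebra.intNorm (PA κ τ) (PB κ τ) a1)).natDegree : ℤ) -
      ((h.poly (Algebra.intNorm (PA κ τ) (PB κ τ) b1)).natDegree : ℤ) := by
    refine quot hN (PA κ τ) (PB κ τ) L (fun a => (h.poly a).natDegree) ?_ ?_ ha1 hb1 hf1
    · intro a b ha hb
      show (h.poly (a * b)).natDegree = _
      rw [map_mul, Polynomial.natDegree_mul]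
      · exact fun h' => ha ((map_eq_zero_iff _ h.poly.injective).1 h')
      · exact fun h' => hb ((map_eq_zero_iff _ h.poly.injective).1 h')
    · intro g hg
      exact (hfin g hg).preimage Sum.inl_injective.injOn
  have e2 : ∑ᶠ Q : HeightOneSpectrum (PB κ τ⁻¹), ((ffPlaces h).w (Sum.inr Q) : ℤ) *
        log ((ffPlaces h).v (Sum.inr Q) f) =
      ((h.inv.poly (Algebra.intNorm (PA κ τ⁻¹) (PB κ τ⁻¹) a2)).rootMultiplicity 0 : ℤ) -
      ((h.inv.poly (Algebra.intNorm (PA κ τ⁻¹) (PB κ τ⁻¹) b2)).rootMultiplicity 0 : ℤ) := by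
    refine quot hN (PA κ τ⁻¹) (PB κ τ⁻¹) L (fun a => (h.inv.poly a).rootMultiplicity 0) ?_ ?_
      ha2 hb2 hf2
    · intro a b ha hb
      show (h.inv.poly (a * b)).rootMultiplicity 0 = _
      rw [map_mul, Polynomial.rootMultiplicity_mul]
      refine mul_ne_zero ?_ ?_
      · exact fun h' => ha ((map_eq_zero_iff _ h.inv.poly.injective).1 h')
      · exact fun h' => hb ((map_eq_zero_iff _ h.inv.poly.injective).1 h')
    · intro g hg
      exact (hfin g hg).preimage Sum.inr_injective.injOn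
  rw [e1, e2]
  have n1 := intNorm_eq h a1
  have n2 := intNorm_eq h b1
  have n3 := intNorm_eq h.inv a2
  have n4 := intNorm_eq h.inv b2
  rw [nm_inv] at n3 n4
  have c1 : (a1 : L) ≠ 0 := fun h' => ha1 (Subtype.ext h')
  have c2 : (b1 : L) ≠ 0 := fun h' => hb1 (Subtype.ext h')
  have c3 : (a2 : L) ≠ 0 := fun h' => ha2 (Subtype.ext h')
  have c4 : (b2 : L) ≠ 0 := fun h' => hb2 (Subtype.ext h')
  have hne : ∀ {σ : L} {P : Polynomial κ} {x : L}, x ≠ 0 → Polynomial.aeval σ P = nm κ τ x →
      P ≠ 0 := by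
    rintro σ P x hx hP rfl
    rw [map_zero] at hP
    exact nm_ne_zero h hx hP.symm
  have hf1' : (a1 : L) * f = b1 := hf1
  have hf2' : (a2 : L) * f = b2 := hf2
  have hmul : (b1 : L) * a2 = a1 * b2 := by
    rw [← hf1', ← hf2']
    ring
  have key := deg_compare h.tr (hne c2 n2) (hne c1 n1) (hne c4 n4) (hne c3 n3)
    (by rw [n1, n2, n3, n4, ← map_mul, ← map_mul, hmul])
  omega

/-- **PROD.** -/
theorem prod (hN : NormidStatement) (hP : PlaceStatement) : ProdStatement := by
  intro κ L _ _ _ τ h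
  exact ⟨(hP κ L τ h).fin, prod_aux hN h (hP κ L τ h).fin⟩

end main

end Pool.Agent.Gen.H58
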